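import Mathlib
import Pool.Agent.H238Z.AmpStar

/-!
# The graph amplitude function can vanish

The graph is the double star with two adjacent centres and five leaves at each centre.
The definitions are in `Pool.Agent.H238Z.AmpDefs`.
-/

namespace Pool.Agent.Results.MP_b525e0_co.Disproof

open Pool.Agent.H238Z.Amp

/-- There are a finite simple graph `G` (a tree) and a configuration `x` in `C_G(ℝ³)` (even with
all points distinct) such that, for every admissible choice of spinors and orientation (such
choices exist), the denominator is nonzero and `A_G(x) = 0`. -/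
theorem result : ∃ (n : ℕ) (G : SimpleGraph (Fin n)) (x : Fin n → E3),
    G.IsTree ∧ Function.Injective x ∧ Admissible G x ∧
    (∃ ψ Δ, IsSpinorChoice G x ψ ∧ IsOrientation G Δ) ∧
    ∀ ψ Δ, IsSpinorChoice G x ψ → IsOrientation G Δ →
      denom G ψ Δ ≠ 0 ∧ amplitude G ψ Δ = 0 :=
  ⟨12, DS, xx, main⟩

end Pool.Agent.Results.MP_b525e0_co.Disproof
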